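import Mathlib
import Pool.Agent.J4.H38.SR.Par
import Pool.Agent.J4.H57.QP.Sh
import Pool.Agent.J4.H57.QP.Tr

/-! From the elements up to `N ^ 5` of a set of rough integers to those between consecutive fifth powers, if the
local density is of the right order of magnitude (helper57). -/

set_option autoImplicit false

namespace Pool.Agent.J4.H57.BQ

open Finset Filter
open Pool.Agent.Y822
open Pool.Agent.J4.H38.SR
open Pool.Agent.W41 (JJ)
open Pool.Agent.H387R2.Uni (nuT)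
open Pool.Agent.H373R2.T7 (pz Vz mem_pz JJ_small)
open Pool.Agent.J4.H57.QP (many fifth_root diff_le)

lemma nuT_shift (T : Finset ℕ) (a : ℕ) {p : ℕ} (hp : 0 < p) : nuT (T.image (fun t => a + t)) p = nuT T p := by
  classical
  unfold nuT
  have h : (T.image (fun t => a + t)).image (· % p) = (T.image (· % p)).image (fun r => (a + r) % p) := by
    rw [image_image, image_image]
    refine image_congr fun t _ => ?_
    show (a + t) % p = (a + t % p) % p
    rw [Nat.add_mod_mod]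
  rw [h, card_image_of_injOn]
  intro r hr s hs hrs
  rw [mem_coe, mem_image] at hr hs
  obtain ⟨r', _, rfl⟩ := hr
  obtain ⟨s', _, rfl⟩ := hs
  have h1 : a + r' % p ≡ a + s' % p [MOD p] := hrs
  exact Nat.ModEq.eq_of_lt_of_lt (Nat.ModEq.add_left_cancel' a h1) (Nat.mod_lt _ hp) (Nat.mod_lt _ hp)

lemma VT_shift (y : ℕ) (T : Finset ℕ) (a : ℕ) : VT y (T.image (fun t => a + t)) = VT y T := by
  unfold VT
  refine prod_congr rfl fun p hp => ?_
  have hp0 := (mem_filter.1 hp).2.pos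
  rw [fT_eq _ hp0, fT_eq _ hp0, nuT_shift T a hp0]

/-- upper bound in an interval -/
lemma up (r : ℕ) : ∃ C0 K0 : ℕ, 1 ≤ C0 ∧ 1 ≤ K0 ∧ ∀ y : ℕ, 2 ≤ y → ∀ T : Finset ℕ, T.card ≤ r → ∀ a M z : ℕ,
    ∀ Q : Finset ℕ, (∀ p ∈ Q, a < p ∧ p ≤ a + M ∧ z < p ∧ ∀ t ∈ T, Ro y (p - z + t)) →
    (Q.card : ℝ) ≤ 2 * (M * VT y T) + 2 + Ad C0 K0 C0 y := by
  classical
  obtain ⟨C0, K0, h1, h2, h3⟩ := cntT r
  refine ⟨C0, K0, h1, h2, fun y hy T hT a M z Q hQ => ?_⟩
  have hR1 : Ro y 1 := fun p hp _ hd => hp.one_lt.ne' (Nat.dvd_one.1 hd)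
  have h4 := h3 C0 le_rfl y hy (T.image (fun t => (a - z) + t)) (card_image_le.trans hT) M 0 0 1 1 le_rfl le_rfl
    hR1 hR1 (Nat.coprime_one_right 1)
  rw [VT_shift] at h4
  have h5 : ∑ n ∈ Icc 1 M, rT (T.image (fun t => (a - z) + t)) y n *
        ((if 1 ∣ n + 0 then 1 else 0) * (if 1 ∣ n + 0 then 1 else 0)) =
      (((Icc 1 M).filter (fun n => ∀ t ∈ T.image (fun t => (a - z) + t), Ro y (n + t))).card : ℝ) := by
    rw [card_filter]
    push_cast
    refine sum_congr rfl fun n _ => ?_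
    rw [rT_eq, if_pos (one_dvd _), mul_one, mul_one]
  rw [h5] at h4
  have h6 : Q.card ≤ ((Icc 1 M).filter (fun n => ∀ t ∈ T.image (fun t => (a - z) + t), Ro y (n + t))).card := by
    refine card_le_card_of_injOn (fun p => p - z - (a - z)) ?_ ?_
    · intro p hp
      obtain ⟨q1, q2, q3, q4⟩ := hQ p hp
      rw [mem_coe, mem_filter, mem_Icc]
      beta_reduce
      refine ⟨⟨by omega, by omega⟩, fun t ht => ?_⟩
      obtain ⟨t', ht', rfl⟩ := mem_image.1 ht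
      have h7 : p - z - (a - z) + (a - z + t') = p - z + t' := by omega
      rw [h7]
      exact q4 t' ht'
    · intro p hp q hq hpq
      obtain ⟨q1, q2, q3, q4⟩ := hQ p hp
      obtain ⟨r1, r2, r3, r4⟩ := hQ q hq
      have hpq' : p - z - (a - z) = q - z - (a - z) := hpq
      omega
  have h7 : (Q.card : ℝ) ≤ (((Icc 1 M).filter (fun n => ∀ t ∈ T.image (fun t => (a - z) + t), Ro y (n + t))).card : ℝ) := by
    exact_mod_cast h6
  have h8 := (abs_le.1 h4).2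
  have h9 : ((1 : ℝ) / 2) ^ C0 ≤ 1 := pow_le_one₀ (by norm_num) (by norm_num)
  have h10 : 0 ≤ (M : ℝ) * VT y T := mul_nonneg (Nat.cast_nonneg _) (VT_nonneg _ _)
  have h11 : (M : ℝ) / (((1 : ℕ) : ℝ) * ((1 : ℕ) : ℝ)) * VT y T = M * VT y T := by
    push_cast
    ring
  rw [h11] at h8
  have h12 : ((1 : ℝ) / 2) ^ C0 * (M * VT y T) ≤ M * VT y T := by
    calc ((1 : ℝ) / 2) ^ C0 * (M * VT y T) ≤ 1 * (M * VT y T) := mul_le_mul_of_nonneg_right h9 h10
      _ = _ := one_mul _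
  linarith

lemma log_small (r : ℕ) {c : ℝ} (hc : 0 < c) : ∀ᶠ N : ℕ in atTop, Real.log (N : ℝ) ^ r ≤ c * N := by
  have tN : Tendsto (fun N : ℕ => (N : ℝ)) atTop atTop := tendsto_natCast_atTop_atTop
  have h1 := (isLittleO_log_rpow_rpow_atTop (r : ℝ) (show (0 : ℝ) < 1 by norm_num)).bound hc
  filter_upwards [tN.eventually h1, eventually_ge_atTop 1] with N hN hN1
  have hN1' : (1 : ℝ) ≤ N := by exact_mod_cast hN1
  rw [Real.rpow_natCast, Real.rpow_one, Real.norm_of_nonneg (pow_nonneg (Real.log_nonneg hN1') _),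
    Real.norm_of_nonneg (by linarith)] at hN
  exact hN

/-- **from the elements up to `N ^ 5` to those between consecutive fifth powers** -/
theorem local5 (r : ℕ) : ∃ κ₀ : ℝ, 0 < κ₀ ∧ ∀ κ : ℝ, 0 < κ → κ ≤ κ₀ → ∀ δ K : ℝ, 0 < δ → 0 < K → ∃ δ' : ℝ, 0 < δ' ∧
    ∀ᶠ N : ℕ in atTop, ∀ y : ℕ, 3 ≤ y → (y : ℝ) ≤ ((N ^ 5 : ℕ) : ℝ) ^ κ → ∀ T : Finset ℕ, T.card ≤ r →
    VT y T ≤ K / Real.log N ^ r → ∀ z : ℕ, ∀ Q ⊆ Icc 1 (N ^ 5), (∀ p ∈ Q, z < p ∧ ∀ t ∈ T, Ro y (p - z + t)) →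
    δ * ((N : ℝ) ^ 5 / Real.log N ^ r) ≤ (Q.card : ℝ) →
    δ' * N ≤ (((Icc 1 N).filter (fun n : ℕ => δ' * ((N : ℝ) ^ 4 / Real.log N ^ r) ≤
      ((Q.filter (fun p => n ^ 5 < p ∧ p + N ^ 3 < (n + 1) ^ 5)).card : ℝ))).card : ℝ) := by
  classical
  obtain ⟨C0, K0, hC0, hK0, hup⟩ := up r
  have hC0r : (0 : ℝ) < (4 * C0 * C0 + 1 : ℕ) := by positivity
  refine ⟨1 / (5 * (4 * C0 * C0 + 1 : ℕ)), by positivity, fun κ hκ hκ1 δ K hδ hK => ?_⟩
  refine ⟨min (δ / 4) (δ / (252 * K)), by positivity, ?_⟩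
  set δ' := min (δ / 4) (δ / (252 * K)) with hδ'
  have hδ'0 : 0 < δ' := by rw [hδ']; positivity
  have hκ5 : 5 * κ * (4 * C0 * C0 + 1 : ℕ) ≤ 1 := by
    rw [le_div_iff₀ (by positivity)] at hκ1
    linarith
  filter_upwards [log_small r (show (0 : ℝ) < K / (2 + 2 * K0) by positivity), log_small r (show (0 : ℝ) < δ / 4 by positivity),
    eventually_ge_atTop 3] with N e1 e2 hN3 y hy3 hyN T hT hVT z Q hQN hQ hQc
  have hN3r : (3 : ℝ) ≤ N := by exact_mod_cast hN3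
  have hN0 : (0 : ℝ) < N := by linarith
  have hL0 : 0 < Real.log (N : ℝ) := Real.log_pos (by linarith)
  have hLr : 0 < Real.log (N : ℝ) ^ r := by positivity
  obtain ⟨U, hU⟩ : ∃ U : ℝ, U = (N : ℝ) ^ 4 / Real.log N ^ r := ⟨_, rfl⟩
  have hU0 : 0 < U := by rw [hU]; positivity
  -- the additive error
  have hAd : 2 + Ad C0 K0 C0 y ≤ K * U := by
    have hy0 : (3 : ℝ) ≤ y := by exact_mod_cast hy3
    have hJ := JJ_small y hy3
    have hJr : ((JJ y : ℝ) + 2) ≤ 2 * y := by exact_mod_cast hJ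
    have h1 : Ad C0 K0 C0 y ≤ 2 * K0 * (y : ℝ) ^ (4 * C0 * C0 + 1) := by
      unfold Ad
      calc ((JJ y : ℝ) + 2) * ((y : ℝ) ^ (2 * (C0 * C0)) * (K0 * (y : ℝ) ^ (2 * (C0 * C0))))
          ≤ (2 * y) * ((y : ℝ) ^ (2 * (C0 * C0)) * (K0 * (y : ℝ) ^ (2 * (C0 * C0)))) :=
            mul_le_mul_of_nonneg_right hJr (by positivity)
        _ = 2 * K0 * (y : ℝ) ^ (4 * C0 * C0 + 1) := by
            rw [show 4 * C0 * C0 + 1 = 2 * (C0 * C0) + 2 * (C0 * C0) + 1 by ring, pow_succ, pow_add]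
            ring
    have h2 : (y : ℝ) ^ (4 * C0 * C0 + 1) ≤ N := by
      calc (y : ℝ) ^ (4 * C0 * C0 + 1) ≤ (((N ^ 5 : ℕ) : ℝ) ^ κ) ^ (4 * C0 * C0 + 1) :=
            pow_le_pow_left₀ (by positivity) hyN _
        _ = (N : ℝ) ^ (5 * κ * (4 * C0 * C0 + 1 : ℕ)) := by
            rw [Nat.cast_pow, ← Real.rpow_natCast, ← Real.rpow_natCast, ← Real.rpow_mul hN0.le, ← Real.rpow_mul hN0.le]
            norm_num
        _ ≤ (N : ℝ) ^ (1 : ℝ) := Real.rpow_le_rpow_of_exponent_le (by linarith) hκ5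
        _ = N := Real.rpow_one _
    have h3 : 2 + Ad C0 K0 C0 y ≤ (2 + 2 * K0) * N := by
      have h4 : 2 * (K0 : ℝ) * (y : ℝ) ^ (4 * C0 * C0 + 1) ≤ 2 * K0 * N := mul_le_mul_of_nonneg_left h2 (by positivity)
      nlinarith
    refine h3.trans ?_
    rw [hU, mul_div_assoc', le_div_iff₀ hLr]
    have h5 : (2 + 2 * (K0 : ℝ)) * Real.log N ^ r ≤ K * N := by
      have h6 := mul_le_mul_of_nonneg_left e1 (show (0 : ℝ) ≤ 2 + 2 * (K0 : ℝ) by positivity)
      have h7 : (2 + 2 * (K0 : ℝ)) * (K / (2 + 2 * K0) * N) = K * N := by field_simp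
      linarith
    have h8 : (N : ℝ) ^ 2 ≤ (N : ℝ) ^ 4 := pow_le_pow_right₀ (by linarith) (by norm_num)
    calc (2 + 2 * (K0 : ℝ)) * N * Real.log N ^ r = ((2 + 2 * (K0 : ℝ)) * Real.log N ^ r) * N := by ring
      _ ≤ (K * N) * N := mul_le_mul_of_nonneg_right h5 hN0.le
      _ = K * (N : ℝ) ^ 2 := by ring
      _ ≤ K * (N : ℝ) ^ 4 := mul_le_mul_of_nonneg_left h8 hK.le
  obtain ⟨S, hS⟩ : ∃ S : ℕ → Finset ℕ, S = fun n => Q.filter (fun p => n ^ 5 < p ∧ p + N ^ 3 < (n + 1) ^ 5) := ⟨_, rfl⟩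
  -- the upper bound
  have hupper : ∀ n ∈ range N, ((S n).card : ℝ) ≤ 63 * K * U := by
    intro n hn
    rw [mem_range] at hn
    obtain ⟨M, hM⟩ : ∃ M : ℕ, M = (n + 1) ^ 5 - n ^ 5 := ⟨_, rfl⟩
    have hM1 : M ≤ 31 * N ^ 4 := by
      rcases Nat.eq_zero_or_pos n with h0 | h0
      · rw [hM, h0]
        have : 1 ≤ N ^ 4 := Nat.one_le_pow _ _ (by omega)
        simp
        omega
      · rw [hM]
        refine (diff_le h0).trans ?_
        exact Nat.mul_le_mul_left _ (Nat.pow_le_pow_left (by omega) 4)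
    have h1 := hup y (by omega) T hT (n ^ 5) M z (S n) (by
      intro p hp
      rw [hS] at hp
      obtain ⟨p1, p2, p3⟩ := mem_filter.1 hp
      obtain ⟨q1, q2⟩ := hQ p p1
      refine ⟨p2, by omega, q1, q2⟩)
    have h2 : (M : ℝ) ≤ 31 * (N : ℝ) ^ 4 := by exact_mod_cast hM1
    have h3 : (M : ℝ) * VT y T ≤ 31 * (N : ℝ) ^ 4 * (K / Real.log N ^ r) :=
      mul_le_mul h2 hVT (VT_nonneg _ _) (by positivity)
    have h4 : 31 * (N : ℝ) ^ 4 * (K / Real.log N ^ r) = 31 * (K * U) := by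
      rw [hU]; ring
    rw [h4] at h3
    linarith
  -- the covering
  have hcover : Q ⊆ (range N).biUnion S ∪ (range N).biUnion (fun n => Icc ((n + 1) ^ 5 - N ^ 3) ((n + 1) ^ 5)) := by
    intro p hp
    have hp1 := mem_Icc.1 (hQN hp)
    obtain ⟨n, h1, h2⟩ := fifth_root (p - 1)
    have hnN : n < N := by
      by_contra h3
      have h4 : N ^ 5 ≤ n ^ 5 := Nat.pow_le_pow_left (by omega) 5
      omega
    rw [mem_union, mem_biUnion, mem_biUnion]
    by_cases h3 : p + N ^ 3 < (n + 1) ^ 5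
    · left
      refine ⟨n, mem_range.2 hnN, ?_⟩
      rw [hS, mem_filter]
      exact ⟨hp, by omega, h3⟩
    · right
      refine ⟨n, mem_range.2 hnN, ?_⟩
      rw [mem_Icc]
      omega
  have hsumN : Q.card ≤ ∑ n ∈ range N, (S n).card + N * (N ^ 3 + 1) := by
    refine (card_le_card hcover).trans ((card_union_le _ _).trans ?_)
    refine Nat.add_le_add card_biUnion_le (card_biUnion_le.trans ?_)
    calc ∑ n ∈ range N, (Icc ((n + 1) ^ 5 - N ^ 3) ((n + 1) ^ 5)).card ≤ ∑ n ∈ range N, (N ^ 3 + 1) := by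
          refine sum_le_sum fun n _ => ?_
          rw [Nat.card_Icc]
          omega
      _ = N * (N ^ 3 + 1) := by rw [sum_const, card_range, smul_eq_mul]
  have hsum : δ / 2 * U * N ≤ ∑ n ∈ range N, ((S n).card : ℝ) := by
    have h1 : (Q.card : ℝ) ≤ ∑ n ∈ range N, ((S n).card : ℝ) + N * ((N : ℝ) ^ 3 + 1) := by exact_mod_cast hsumN
    have h2 : (N : ℝ) * ((N : ℝ) ^ 3 + 1) ≤ δ / 2 * U * N := by
      have h3 : (1 : ℝ) ≤ (N : ℝ) ^ 3 := one_le_pow₀ (by linarith)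
      have h4 : (N : ℝ) ^ 3 + 1 ≤ δ / 2 * U := by
        rw [hU, mul_div_assoc', le_div_iff₀ hLr]
        calc ((N : ℝ) ^ 3 + 1) * Real.log N ^ r ≤ (2 * (N : ℝ) ^ 3) * (δ / 4 * N) :=
              mul_le_mul (by linarith) e2 hLr.le (by positivity)
          _ = δ / 2 * (N : ℝ) ^ 4 := by ring
      calc (N : ℝ) * ((N : ℝ) ^ 3 + 1) ≤ N * (δ / 2 * U) := mul_le_mul_of_nonneg_left h4 hN0.le
        _ = _ := by ring
    have h5 : δ * ((N : ℝ) ^ 5 / Real.log N ^ r) = δ * U * N := by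
      rw [hU]; ring
    rw [h5] at hQc
    have h6 : δ * U * N = δ / 2 * U * N + δ / 2 * U * N := by ring
    linarith
  have hmany := many (N := N) (f := fun n => ((S n).card : ℝ)) (A := δ' * U) (B := 63 * K * U) (E := δ / 2 * U)
    (by positivity) hupper hsum (by
      have h1 : δ' ≤ δ / 4 := by rw [hδ']; exact min_le_left _ _
      calc δ' * U ≤ δ / 4 * U := mul_le_mul_of_nonneg_right h1 hU0.le
        _ = _ := by ring) (by positivity)
  have hratio : δ / 2 * U / 2 / (63 * K * U) = δ / (252 * K) := by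
    field_simp
    ring
  rw [hratio] at hmany
  have h1 : δ' ≤ δ / (252 * K) := by rw [hδ']; exact min_le_right _ _
  refine (mul_le_mul_of_nonneg_right h1 hN0.le).trans (hmany.trans ?_)
  have hfin : (range N).filter (fun n : ℕ => δ' * U ≤ ((S n).card : ℝ)) ⊆
      (Icc 1 N).filter (fun n : ℕ => δ' * ((N : ℝ) ^ 4 / Real.log N ^ r) ≤
      ((Q.filter (fun p => n ^ 5 < p ∧ p + N ^ 3 < (n + 1) ^ 5)).card : ℝ)) := by
    intro n hn
    rw [mem_filter, mem_range] at hn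
    rw [mem_filter, mem_Icc, ← hU]
    have h2 : n ≠ 0 := by
      rintro rfl
      have h3 : S 0 = ∅ := by
        rw [hS]
        refine filter_eq_empty_iff.2 fun p _ h => ?_
        have := h.2
        omega
      rw [h3, card_empty] at hn
      have : 0 < δ' * U := by positivity
      have := hn.2
      push_cast at this
      linarith
    refine ⟨⟨by omega, by omega⟩, ?_⟩
    have h4 := hn.2
    rw [hS] at h4
    exact h4
  exact_mod_cast card_le_card hfin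

end Pool.Agent.J4.H57.BQ
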