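import Mathlib
import Pool.Agent.J4.H57.BQ.Loc
import Pool.Agent.J4.H38.BP.Defs
import Pool.Agent.J4.H38.DV.TFin
import Pool.Agent.J4.H14.DV.Sm

/-! Pairs of consecutive primes at a bounded distance together with almost primes at almost all short patterns, between
consecutive fifth powers (helper57), from the theorems of helper38 (project BP) up to `x`. -/

set_option autoImplicit false

namespace Pool.Agent.J4.H57.BQ

open Finset Filter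
open Pool.Agent.Y822
open Pool.Agent.J4.H38.SR
open Pool.Agent.J4.H38.DV
open Pool.Agent.H387R2.Uni (nuT)
open Pool.Agent.H373R2.T7 (pz Vz mem_pz)

/-- the elements of `P` are primes at which the forms of `T0` are free of small prime factors -/
def RoP (T0 : Finset ℕ) (z : ℕ) (κ1 : ℝ) (N : ℕ) (P : Finset ℕ) : Prop :=
  ∀ p ∈ P, z < p ∧ ∀ h ∈ T0, ∀ q : ℕ, q.Prime → (q : ℝ) ≤ (N : ℝ) ^ κ1 → ¬ q ∣ p - z + h

/-- statement of `relT` -/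
def St_relT : Prop := ∃ c : ℝ, 0 < c ∧ ∀ (T0 : Finset ℕ) (z : ℕ), z ∈ T0 → (∀ p : ℕ, p.Prime → fT T0 p < p) →
    ∀ (k : ℕ) (δ ε κ1 : ℝ), 0 < δ → 0 < ε → 0 < κ1 → ∃ w₀ : ℕ, 2 ≤ w₀ ∧ ∀ w : ℕ, w₀ ≤ w → ∃ Λ : ℝ, 0 < Λ ∧
    ∀ᶠ N : ℕ in atTop, ∀ H : ℕ, Λ * Real.log N ≤ H → 2 * H ≤ N →
    ∀ P ⊆ (Icc 1 N).filter Nat.Prime, RoP T0 z κ1 N P → δ * (N / Real.log N ^ T0.card) ≤ P.card →
    ∀ Bad : Finset (Finset ℕ), (∀ D ∈ Bad, D ∈ (AW w 0 H).powersetCard (k + 1) ∧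
      (piT' P D N : ℝ) < c ^ (k + 1) * (P.card / Real.log N ^ (k + 1))) →
    (Bad.card : ℝ) ≤ ε * ((AW w 0 H).card : ℝ) ^ (k + 1)

/-- statement of `VTsumT` -/
def St_VTsumT : Prop := ∀ (k : ℕ) (T0 : Finset ℕ) (z : ℕ) (_ : z ∈ T0) (_ : ∀ p : ℕ, p.Prime → fT T0 p < p),
    ∃ w₀ : ℕ, 2 ≤ w₀ ∧ ∀ w : ℕ, w₀ ≤ w → ∃ Cv : ℝ, 0 < Cv ∧ ∀ κ : ℝ, 0 < κ → κ ≤ 1 → ∀ᶠ N : ℕ in atTop,
    ∀ y : ℕ, (y : ℝ) < (N : ℝ) ^ κ → (N : ℝ) ^ κ ≤ y + 1 → ∀ H : ℕ, Real.log N ≤ H → H ≤ N →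
    ∀ A ⊆ AW w 0 H, ∀ j ≤ k, ∑ S ∈ A.powersetCard j, VT y (T0 ∪ S.image (fun t => z + t)) ≤
      Cv * (2 / κ) ^ (j + T0.card) * ((H : ℝ) ^ j / Real.log N ^ (j + T0.card))

/-- statement of `cons45` -/
def St_cons45 : Prop := ∃ (κ1 δ : ℝ) (F : Finset (Finset ℕ)), 0 < κ1 ∧ 0 < δ ∧
    (∀ T0 ∈ F, T0.card = 45 ∧ 212 ∈ T0 ∧ ∀ p : ℕ, p.Prime → fT T0 p < p) ∧
    ∀ᶠ N : ℕ in atTop, ∃ T0 ∈ F, ∃ g : ℕ, 2 ≤ g ∧ g ≤ 212 ∧ Even g ∧ ∃ P ⊆ Icc 1 N,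
      (∀ p ∈ P, 212 < p ∧ p + g ≤ N ∧ p.Prime ∧ (p + g).Prime ∧ (∀ r : ℕ, p < r → r < p + g → ¬ r.Prime) ∧
        ∀ h ∈ T0, ∀ q : ℕ, q.Prime → (q : ℝ) ≤ (N : ℝ) ^ κ1 → ¬ q ∣ p - 212 + h) ∧
      δ * (N / Real.log N ^ 45) ≤ P.card

open Classical in
/-- few `D` have a large density -/
theorem mark (hV : St_VTsumT) (k : ℕ) (T0 : Finset ℕ) (z : ℕ) (hz : z ∈ T0) (hadm : ∀ p : ℕ, p.Prime → fT T0 p < p) :
    ∃ w₀ : ℕ, 2 ≤ w₀ ∧ ∀ w : ℕ, w₀ ≤ w → ∀ κ ε : ℝ, 0 < κ → κ ≤ 1 → 0 < ε → ∃ K : ℝ, 0 < K ∧ ∀ᶠ N : ℕ in atTop,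
    ∀ y : ℕ, (y : ℝ) < (N : ℝ) ^ κ → (N : ℝ) ^ κ ≤ y + 1 → ∀ H : ℕ, Real.log N ≤ H → H ≤ N →
    ((((AW w 0 H).powersetCard k).filter (fun D => K / Real.log N ^ (k + T0.card) <
      VT y (T0 ∪ D.image (fun t => z + t)))).card : ℝ) ≤ ε * ((AW w 0 H).card : ℝ) ^ k := by
  obtain ⟨w₀, hw₀, h⟩ := hV k T0 z hz hadm
  refine ⟨w₀, hw₀, fun w hw κ ε hκ hκ1 hε => ?_⟩
  obtain ⟨Cv, hCv, h⟩ := h w hw
  obtain ⟨W, hW⟩ : ∃ W : ℕ, W = ∏ p ∈ pz w, p := ⟨_, rfl⟩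
  have hW1 : 1 ≤ W := by
    rw [hW]
    exact prod_pos fun _ hp => (mem_pz.1 hp).2.pos
  have hWr : (0 : ℝ) < W := by exact_mod_cast hW1
  obtain ⟨K, hK⟩ : ∃ K : ℝ, K = Cv * (2 / κ) ^ (k + T0.card) * (2 * W) ^ k / ε := ⟨_, rfl⟩
  have hK0 : 0 < K := by rw [hK]; positivity
  have hlim : Tendsto (fun N : ℕ => Real.log (N : ℝ)) atTop atTop :=
    Real.tendsto_log_atTop.comp (tendsto_natCast_atTop_atTop (R := ℝ))
  refine ⟨K, hK0, ?_⟩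
  filter_upwards [h κ hκ hκ1, hlim.eventually_ge_atTop (2 * W), hlim.eventually_ge_atTop 1] with N h1 h2 h3 y hy1 hy2 H hH1 hH2
  have hL : 0 < Real.log (N : ℝ) := by linarith
  have h4 := h1 y hy1 hy2 H hH1 hH2 (AW w 0 H) (Subset.refl _) k le_rfl
  obtain ⟨B, hB⟩ : ∃ B, B = ((AW w 0 H).powersetCard k).filter (fun D => K / Real.log N ^ (k + T0.card) <
      VT y (T0 ∪ D.image (fun t => z + t))) := ⟨_, rfl⟩
  rw [← hB]
  have hH : (H : ℝ) ≤ 2 * W * (AW w 0 H).card := by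
    have h5 := (Pool.Agent.J4.H14.DV.AW_card w 0 H).2
    rw [← hW] at h5
    have h6 : 2 * (W : ℝ) ≤ H := h2.trans hH1
    nlinarith
  have h5 : (B.card : ℝ) * (K / Real.log N ^ (k + T0.card)) ≤
      Cv * (2 / κ) ^ (k + T0.card) * ((H : ℝ) ^ k / Real.log N ^ (k + T0.card)) := by
    calc (B.card : ℝ) * (K / Real.log N ^ (k + T0.card)) = ∑ _D ∈ B, K / Real.log N ^ (k + T0.card) := by
          rw [sum_const, nsmul_eq_mul]
      _ ≤ ∑ D ∈ B, VT y (T0 ∪ D.image (fun t => z + t)) := by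
          refine sum_le_sum fun D hD => ?_
          rw [hB] at hD
          exact (mem_filter.1 hD).2.le
      _ ≤ ∑ D ∈ (AW w 0 H).powersetCard k, VT y (T0 ∪ D.image (fun t => z + t)) := by
          refine sum_le_sum_of_subset_of_nonneg ?_ fun D _ _ => VT_nonneg _ _
          rw [hB]
          exact filter_subset _ _
      _ ≤ _ := h4
  have h6 : (H : ℝ) ^ k ≤ (2 * W) ^ k * ((AW w 0 H).card : ℝ) ^ k := by
    rw [← mul_pow]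
    exact pow_le_pow_left₀ (Nat.cast_nonneg _) hH k
  have hLr : 0 < Real.log (N : ℝ) ^ (k + T0.card) := by positivity
  have h7 : (B.card : ℝ) * K ≤ Cv * (2 / κ) ^ (k + T0.card) * (H : ℝ) ^ k := by
    have h8 := mul_le_mul_of_nonneg_right h5 hLr.le
    have e1 : (B.card : ℝ) * (K / Real.log N ^ (k + T0.card)) * Real.log N ^ (k + T0.card) = B.card * K := by
      field_simp
    have e2 : Cv * (2 / κ) ^ (k + T0.card) * ((H : ℝ) ^ k / Real.log N ^ (k + T0.card)) *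
        Real.log N ^ (k + T0.card) = Cv * (2 / κ) ^ (k + T0.card) * (H : ℝ) ^ k := by
      field_simp
    rw [e1, e2] at h8
    exact h8
  have h8 : (B.card : ℝ) * K ≤ K * (ε * ((AW w 0 H).card : ℝ) ^ k) := by
    refine h7.trans ?_
    calc Cv * (2 / κ) ^ (k + T0.card) * (H : ℝ) ^ k ≤
          Cv * (2 / κ) ^ (k + T0.card) * ((2 * W) ^ k * ((AW w 0 H).card : ℝ) ^ k) :=
          mul_le_mul_of_nonneg_left h6 (by positivity)
      _ = K * (ε * ((AW w 0 H).card : ℝ) ^ k) := by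
          rw [hK]
          field_simp
  rw [mul_comm] at h8
  exact le_of_mul_le_mul_left h8 hK0

/-- uniform constants for a finite family -/
lemma unif {α : Type*} (F : Finset α) (P : α → ℝ → Prop) (hmono : ∀ T ∈ F, ∀ a b : ℝ, 0 < a → a ≤ b → P T a → P T b)
    (h : ∀ T ∈ F, ∃ a : ℝ, 0 < a ∧ P T a) : ∃ a : ℝ, 0 < a ∧ ∀ T ∈ F, P T a := by
  classical
  induction F using Finset.induction_on with
  | empty => exact ⟨1, one_pos, fun T hT => absurd hT (notMem_empty T)⟩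
  | insert T F hT ih =>
    obtain ⟨a, ha, h1⟩ := ih (fun S hS => hmono S (mem_insert_of_mem hS)) (fun S hS => h S (mem_insert_of_mem hS))
    obtain ⟨b, hb, h2⟩ := h T (mem_insert_self _ _)
    refine ⟨max a b, lt_max_of_lt_left ha, fun S hS => ?_⟩
    rcases mem_insert.1 hS with rfl | hS'
    · exact hmono S (mem_insert_self _ _) b _ hb (le_max_right _ _) h2
    · exact hmono S hS a _ ha (le_max_left _ _) (h1 S hS')

lemma unifN {α : Type*} (F : Finset α) (P : α → ℕ → Prop)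
    (h : ∀ T ∈ F, ∃ a : ℕ, 2 ≤ a ∧ ∀ w : ℕ, a ≤ w → P T w) : ∃ a : ℕ, 2 ≤ a ∧ ∀ w : ℕ, a ≤ w → ∀ T ∈ F, P T w := by
  classical
  induction F using Finset.induction_on with
  | empty => exact ⟨2, le_rfl, fun w _ T hT => absurd hT (notMem_empty T)⟩
  | insert T F hT ih =>
    obtain ⟨a, ha, h1⟩ := ih (fun S hS => h S (mem_insert_of_mem hS))
    obtain ⟨b, hb, h2⟩ := h T (mem_insert_self _ _)
    refine ⟨max a b, le_max_of_le_left ha, fun w hw S hS => ?_⟩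
    rcases mem_insert.1 hS with rfl | hS'
    · exact h2 w ((le_max_right _ _).trans hw)
    · exact h1 w ((le_max_left _ _).trans hw) S hS'

open Classical in
/-- the primes `p` with `p` and `p + g` consecutive primes and all `p + d`, `d ∈ D`, products of at most two primes, all of
them at least `N ^ (5/7)`, for which `p` and `p + N ^ 3` are between `n ^ 5` and `(n + 1) ^ 5` -/
noncomputable def cq (N g : ℕ) (D : Finset ℕ) (n : ℕ) : ℕ :=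
  ((Icc 1 (N ^ 5)).filter (fun p => n ^ 5 < p ∧ p + N ^ 3 < (n + 1) ^ 5 ∧ p.Prime ∧ (p + g).Prime ∧
    (∀ r : ℕ, p < r → r < p + g → ¬ r.Prime) ∧ ∀ d ∈ D, (p + d).primeFactorsList.length ≤ 2 ∧
    ∀ q ∈ (p + d).primeFactors, ((N ^ 5 : ℕ) : ℝ) ^ (1 / 7 : ℝ) ≤ q)).card

open Classical in
theorem main5 (hR : St_relT) (hV : St_VTsumT) (hC : St_cons45) (k : ℕ) (ε : ℝ) (hε : 0 < ε) :
    ∃ w₀ : ℕ, 2 ≤ w₀ ∧ ∀ w : ℕ, w₀ ≤ w → ∃ Λ δ' : ℝ, 0 < Λ ∧ 0 < δ' ∧ ∀ᶠ N : ℕ in atTop,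
    ∃ g : ℕ, 2 ≤ g ∧ g ≤ 212 ∧ Even g ∧ ∀ H : ℕ, Λ * Real.log N ≤ H → H ≤ N ^ 3 →
    ((((AW w 0 H).powersetCard (k + 1)).filter (fun D =>
      ¬ δ' * N ≤ (((Icc 1 N).filter (fun n : ℕ => δ' * ((N : ℝ) ^ 4 / Real.log N ^ (k + 1 + 45)) ≤
        (cq N g D n : ℝ))).card : ℝ))).card : ℝ) ≤ ε * ((AW w 0 H).card : ℝ) ^ (k + 1) := by
  obtain ⟨c, hc, hrel⟩ := hR
  obtain ⟨κ1, δ, F, hκ1, hδ, hF, hcons⟩ := hC
  obtain ⟨κ₀, hκ₀, hloc⟩ := local5 (k + 1 + 45)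
  obtain ⟨κ, hκ⟩ : ∃ κ : ℝ, κ = min κ₀ (min κ1 (1 / 7)) := ⟨_, rfl⟩
  have hκ0 : 0 < κ := by rw [hκ]; positivity
  have hκa : κ ≤ κ₀ := by rw [hκ]; exact min_le_left _ _
  have hκb : κ ≤ κ1 := by rw [hκ]; exact (min_le_right _ _).trans (min_le_left _ _)
  have hκc : κ ≤ 1 / 7 := by rw [hκ]; exact (min_le_right _ _).trans (min_le_right _ _)
  have hκd : κ ≤ 1 := by linarith
  -- the parameter `w`
  obtain ⟨w₀, hw₀, hww⟩ := unifN F (fun T0 w => (∃ Λ : ℝ, 0 < Λ ∧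
      ∀ᶠ N : ℕ in atTop, ∀ H : ℕ, Λ * Real.log N ≤ H → 2 * H ≤ N →
      ∀ P ⊆ (Icc 1 N).filter Nat.Prime, RoP T0 212 κ1 N P → δ * (N / Real.log N ^ T0.card) ≤ P.card →
      ∀ Bad : Finset (Finset ℕ), (∀ D ∈ Bad, D ∈ (AW w 0 H).powersetCard (k + 1) ∧
        (piT' P D N : ℝ) < c ^ (k + 1) * (P.card / Real.log N ^ (k + 1))) →
      (Bad.card : ℝ) ≤ ε / 2 * ((AW w 0 H).card : ℝ) ^ (k + 1)) ∧
      ∃ K : ℝ, 0 < K ∧ ∀ᶠ N : ℕ in atTop,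
      ∀ y : ℕ, (y : ℝ) < (N : ℝ) ^ κ → (N : ℝ) ^ κ ≤ y + 1 → ∀ H : ℕ, Real.log N ≤ H → H ≤ N →
      ((((AW w 0 H).powersetCard (k + 1)).filter (fun D => K / Real.log N ^ (k + 1 + T0.card) <
        VT y (T0 ∪ D.image (fun t => 212 + t)))).card : ℝ) ≤ ε / 2 * ((AW w 0 H).card : ℝ) ^ (k + 1)) (by
    intro T0 hT0
    obtain ⟨f1, f2, f3⟩ := hF T0 hT0
    obtain ⟨w₁, hw₁, g1⟩ := hrel T0 212 f2 f3 k δ (ε / 2) κ1 hδ (by positivity) hκ1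
    obtain ⟨w₂, hw₂, g2⟩ := mark hV (k + 1) T0 212 f2 f3
    exact ⟨max w₁ w₂, le_max_of_le_left hw₁, fun w hw => ⟨g1 w ((le_max_left _ _).trans hw),
      g2 w ((le_max_right _ _).trans hw) κ (ε / 2) hκ0 hκd (by positivity)⟩⟩)
  refine ⟨w₀, hw₀, fun w hw => ?_⟩
  have hw' := hww w hw
  obtain ⟨Λ, hΛ, hA⟩ := unif F (fun T0 Λ => ∀ᶠ N : ℕ in atTop, ∀ H : ℕ, Λ * Real.log N ≤ H → 2 * H ≤ N →
      ∀ P ⊆ (Icc 1 N).filter Nat.Prime, RoP T0 212 κ1 N P → δ * (N / Real.log N ^ T0.card) ≤ P.card →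
      ∀ Bad : Finset (Finset ℕ), (∀ D ∈ Bad, D ∈ (AW w 0 H).powersetCard (k + 1) ∧
        (piT' P D N : ℝ) < c ^ (k + 1) * (P.card / Real.log N ^ (k + 1))) →
      (Bad.card : ℝ) ≤ ε / 2 * ((AW w 0 H).card : ℝ) ^ (k + 1)) (by
    intro T0 _ a b _ hab h
    filter_upwards [h, eventually_ge_atTop 1] with N h1 hN1 H hH1 hH2
    refine h1 H (le_trans ?_ hH1) hH2
    exact mul_le_mul_of_nonneg_right hab (Real.log_natCast_nonneg N)) (fun T0 hT0 => (hw' T0 hT0).1)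
  obtain ⟨K, hK, hB⟩ := unif F (fun T0 K => ∀ᶠ N : ℕ in atTop,
      ∀ y : ℕ, (y : ℝ) < (N : ℝ) ^ κ → (N : ℝ) ^ κ ≤ y + 1 → ∀ H : ℕ, Real.log N ≤ H → H ≤ N →
      ((((AW w 0 H).powersetCard (k + 1)).filter (fun D => K / Real.log N ^ (k + 1 + T0.card) <
        VT y (T0 ∪ D.image (fun t => 212 + t)))).card : ℝ) ≤ ε / 2 * ((AW w 0 H).card : ℝ) ^ (k + 1)) (by
    intro T0 _ a b _ hab h
    filter_upwards [h] with N h1 y hy1 hy2 H hH1 hH2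
    refine le_trans ?_ (h1 y hy1 hy2 H hH1 hH2)
    have hsub : ((AW w 0 H).powersetCard (k + 1)).filter (fun D => b / Real.log N ^ (k + 1 + T0.card) <
        VT y (T0 ∪ D.image (fun t => 212 + t))) ⊆ ((AW w 0 H).powersetCard (k + 1)).filter (fun D =>
        a / Real.log N ^ (k + 1 + T0.card) < VT y (T0 ∪ D.image (fun t => 212 + t))) := by
      intro D hD
      rw [mem_filter] at hD ⊢
      refine ⟨hD.1, lt_of_le_of_lt ?_ hD.2⟩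
      exact div_le_div_of_nonneg_right hab (pow_nonneg (Real.log_natCast_nonneg N) _)
    exact_mod_cast card_le_card hsub) (fun T0 hT0 => (hw' T0 hT0).2)
  have hA' := (eventually_all_finset F).2 hA
  have hB' := (eventually_all_finset F).2 hB
  obtain ⟨δ', hδ', hloc⟩ := hloc κ hκ0 hκa (c ^ (k + 1) * δ / 5 ^ (k + 1 + 45)) K (by positivity) hK
  have t5 : Tendsto (fun N : ℕ => N ^ 5) atTop atTop := tendsto_pow_atTop (by norm_num)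
  have hlim : Tendsto (fun N : ℕ => Real.log (N : ℝ)) atTop atTop :=
    Real.tendsto_log_atTop.comp (tendsto_natCast_atTop_atTop (R := ℝ))
  have hy3 : ∀ᶠ N : ℕ in atTop, (4 : ℝ) ≤ ((N ^ 5 : ℕ) : ℝ) ^ κ :=
    (((tendsto_rpow_atTop hκ0).comp (tendsto_natCast_atTop_atTop (R := ℝ))).comp t5).eventually_ge_atTop 4
  refine ⟨max (5 * Λ) 5, δ', lt_max_of_lt_left (by positivity), hδ', ?_⟩
  filter_upwards [t5.eventually hA', t5.eventually hB', t5.eventually hcons, hloc, hy3, hlim.eventually_ge_atTop 1,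
    eventually_ge_atTop 2] with N a1 a2 a3 a4 a5 a6 a7
  obtain ⟨T0, hT0, g, hg1, hg2, hg3, P, hPN, hP, hPc⟩ := a3
  obtain ⟨f1, f2, f3⟩ := hF T0 hT0
  refine ⟨g, hg1, hg2, hg3, fun H hH1 hH2 => ?_⟩
  have hN2r : (2 : ℝ) ≤ N := by exact_mod_cast a7
  have hlog5 : Real.log ((N ^ 5 : ℕ) : ℝ) = 5 * Real.log N := by
    push_cast
    rw [Real.log_pow]
    norm_num
  have hL0 : 0 < Real.log (N : ℝ) := by linarith
  have hH3 : Λ * Real.log ((N ^ 5 : ℕ) : ℝ) ≤ H := by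
    rw [hlog5]
    calc Λ * (5 * Real.log N) = (5 * Λ) * Real.log N := by ring
      _ ≤ max (5 * Λ) 5 * Real.log N := mul_le_mul_of_nonneg_right (le_max_left _ _) hL0.le
      _ ≤ H := hH1
  have hH4 : Real.log ((N ^ 5 : ℕ) : ℝ) ≤ H := by
    rw [hlog5]
    calc 5 * Real.log N ≤ max (5 * Λ) 5 * Real.log N := mul_le_mul_of_nonneg_right (le_max_right _ _) hL0.le
      _ ≤ H := hH1
  have hN35 : 2 * N ^ 3 ≤ N ^ 5 := by
    have h1 : N ^ 5 = N * N * N ^ 3 := by ring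
    rw [h1]
    exact Nat.mul_le_mul_right _ (by nlinarith)
  -- the sifting limit
  obtain ⟨y, hy⟩ : ∃ y : ℕ, y = ⌈((N ^ 5 : ℕ) : ℝ) ^ κ⌉₊ - 1 := ⟨_, rfl⟩
  have hceil := Nat.le_ceil (((N ^ 5 : ℕ) : ℝ) ^ κ)
  have hceil' := Nat.ceil_lt_add_one (show (0 : ℝ) ≤ ((N ^ 5 : ℕ) : ℝ) ^ κ by positivity)
  have hc4 : 4 ≤ ⌈((N ^ 5 : ℕ) : ℝ) ^ κ⌉₊ := by
    have : ((4 : ℕ) : ℝ) ≤ (⌈((N ^ 5 : ℕ) : ℝ) ^ κ⌉₊ : ℝ) := by
      rw [Nat.cast_ofNat]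
      exact a5.trans hceil
    exact_mod_cast this
  have hyc : ((y : ℕ) : ℝ) + 1 = (⌈((N ^ 5 : ℕ) : ℝ) ^ κ⌉₊ : ℝ) := by
    have : y + 1 = ⌈((N ^ 5 : ℕ) : ℝ) ^ κ⌉₊ := by omega
    exact_mod_cast this
  have hy1 : (y : ℝ) < ((N ^ 5 : ℕ) : ℝ) ^ κ := by linarith
  have hy2 : ((N ^ 5 : ℕ) : ℝ) ^ κ ≤ y + 1 := by linarith
  have hy3 : 3 ≤ y := by omega
  have hN5one : (1 : ℝ) ≤ ((N ^ 5 : ℕ) : ℝ) := by exact_mod_cast Nat.one_le_pow _ _ (by omega)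
  have hyκ1 : (y : ℝ) ≤ ((N ^ 5 : ℕ) : ℝ) ^ κ1 := hy1.le.trans (Real.rpow_le_rpow_of_exponent_le hN5one hκb)
  have hy7 : (y : ℝ) < ((N ^ 5 : ℕ) : ℝ) ^ (1 / 7 : ℝ) := lt_of_lt_of_le hy1 (Real.rpow_le_rpow_of_exponent_le hN5one hκc)
  -- the two kinds of bad sets
  obtain ⟨Bad, hBad⟩ : ∃ Bad, Bad = ((AW w 0 H).powersetCard (k + 1)).filter (fun D =>
      ¬ δ' * N ≤ (((Icc 1 N).filter (fun n : ℕ => δ' * ((N : ℝ) ^ 4 / Real.log N ^ (k + 1 + 45)) ≤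
        (cq N g D n : ℝ))).card : ℝ)) := ⟨_, rfl⟩
  obtain ⟨B1, hB1⟩ : ∃ B1, B1 = ((AW w 0 H).powersetCard (k + 1)).filter (fun D =>
      (piT' P D (N ^ 5) : ℝ) < c ^ (k + 1) * (P.card / Real.log ((N ^ 5 : ℕ) : ℝ) ^ (k + 1))) := ⟨_, rfl⟩
  obtain ⟨B2, hB2⟩ : ∃ B2, B2 = ((AW w 0 H).powersetCard (k + 1)).filter (fun D =>
      K / Real.log ((N ^ 5 : ℕ) : ℝ) ^ (k + 1 + T0.card) < VT y (T0 ∪ D.image (fun t => 212 + t))) := ⟨_, rfl⟩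
  rw [← hBad]
  have hB1c : (B1.card : ℝ) ≤ ε / 2 * ((AW w 0 H).card : ℝ) ^ (k + 1) := by
    refine a1 T0 hT0 H hH3 (by omega) P (fun p hp => mem_filter.2 ⟨hPN hp, (hP p hp).2.2.1⟩)
      (fun p hp => ⟨(hP p hp).1, (hP p hp).2.2.2.2.2⟩) (by rw [f1]; exact hPc) B1 (fun D hD => ?_)
    rw [hB1] at hD
    exact mem_filter.1 hD
  have hB2c : (B2.card : ℝ) ≤ ε / 2 * ((AW w 0 H).card : ℝ) ^ (k + 1) := by
    rw [hB2]
    exact a2 T0 hT0 y hy1 hy2 H hH4 (by omega)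
  have hsub : Bad ⊆ B1 ∪ B2 := by
    intro D hD
    rw [hBad, mem_filter] at hD
    rw [mem_union]
    by_contra hno
    push Not at hno
    obtain ⟨n1, n2⟩ := hno
    apply hD.2
    rw [hB1, mem_filter, not_and, not_lt] at n1
    rw [hB2, mem_filter, not_and, not_lt] at n2
    have m1 := n1 hD.1
    have m2 := n2 hD.1
    obtain ⟨hDs, hDc⟩ := mem_powersetCard.1 hD.1
    obtain ⟨Q, hQ⟩ : ∃ Q, Q = P.filter (fun p => ∀ d ∈ D, (p + d).primeFactorsList.length ≤ 2 ∧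
      ∀ q ∈ (p + d).primeFactors, ((N ^ 5 : ℕ) : ℝ) ^ (1 / 7 : ℝ) ≤ q) := ⟨_, rfl⟩
    have hQc : (Q.card : ℝ) = piT' P D (N ^ 5) := by
      rw [hQ]
      unfold piT'
      congr
    have key := a4 y hy3 hy1.le (T0 ∪ D.image (fun t => 212 + t)) (by
      refine (card_union_le _ _).trans ?_
      have := card_image_le (s := D) (f := fun t => 212 + t)
      omega) (by
      refine m2.trans ?_
      rw [f1, hlog5]
      refine div_le_div_of_nonneg_left hK.le (by positivity) ?_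
      exact pow_le_pow_left₀ hL0.le (by linarith) _) 212 Q (by
      intro p hp
      rw [hQ] at hp
      exact hPN (mem_filter.1 hp).1) (by
      intro p hp
      rw [hQ, mem_filter] at hp
      obtain ⟨p1, p2, p3, p4, p5, p6⟩ := hP p hp.1
      refine ⟨p1, fun t ht q hq hqy hdvd => ?_⟩
      rcases mem_union.1 ht with ht | ht
      · exact p6 t ht q hq (le_trans (by exact_mod_cast hqy) hyκ1) hdvd
      · obtain ⟨d, hd, rfl⟩ := mem_image.1 ht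
        have e1 : p - 212 + (212 + d) = p + d := by omega
        rw [e1] at hdvd
        have e2 := (hp.2 d hd).2 q (Nat.mem_primeFactors.2 ⟨hq, hdvd, by omega⟩)
        have e3 : (q : ℝ) ≤ y := by exact_mod_cast hqy
        linarith) (by
      rw [hQc]
      refine le_trans ?_ m1
      rw [hlog5]
      rw [hlog5] at hPc
      have e1 : c ^ (k + 1) * δ / 5 ^ (k + 1 + 45) * ((N : ℝ) ^ 5 / Real.log N ^ (k + 1 + 45)) =
          c ^ (k + 1) * (δ * (((N ^ 5 : ℕ) : ℝ) / (5 * Real.log N) ^ 45) / (5 * Real.log N) ^ (k + 1)) := by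
        push_cast
        rw [pow_add (5 : ℝ), pow_add (Real.log (N : ℝ)), mul_pow, mul_pow]
        field_simp
      rw [e1]
      exact mul_le_mul_of_nonneg_left (div_le_div_of_nonneg_right hPc (by positivity)) (by positivity))
    refine key.trans ?_
    have hsub2 : (Icc 1 N).filter (fun n : ℕ => δ' * ((N : ℝ) ^ 4 / Real.log N ^ (k + 1 + 45)) ≤
        ((Q.filter (fun p => n ^ 5 < p ∧ p + N ^ 3 < (n + 1) ^ 5)).card : ℝ)) ⊆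
        (Icc 1 N).filter (fun n : ℕ => δ' * ((N : ℝ) ^ 4 / Real.log N ^ (k + 1 + 45)) ≤ (cq N g D n : ℝ)) := by
      intro n hn
      rw [mem_filter] at hn ⊢
      refine ⟨hn.1, hn.2.trans ?_⟩
      have hsub3 : Q.filter (fun p => n ^ 5 < p ∧ p + N ^ 3 < (n + 1) ^ 5) ⊆
          (Icc 1 (N ^ 5)).filter (fun p => n ^ 5 < p ∧ p + N ^ 3 < (n + 1) ^ 5 ∧ p.Prime ∧ (p + g).Prime ∧
          (∀ r : ℕ, p < r → r < p + g → ¬ r.Prime) ∧ ∀ d ∈ D, (p + d).primeFactorsList.length ≤ 2 ∧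
          ∀ q ∈ (p + d).primeFactors, ((N ^ 5 : ℕ) : ℝ) ^ (1 / 7 : ℝ) ≤ q) := by
        intro p hp
        rw [mem_filter, hQ, mem_filter] at hp
        obtain ⟨⟨q1, q2⟩, q3, q4⟩ := hp
        obtain ⟨p1, p2, p3, p4, p5, p6⟩ := hP p q1
        rw [mem_filter]
        exact ⟨hPN q1, q3, q4, p3, p4, p5, q2⟩
      unfold cq
      exact_mod_cast card_le_card hsub3
    exact_mod_cast card_le_card hsub2
  have h1 : (Bad.card : ℝ) ≤ B1.card + B2.card := by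
    exact_mod_cast (card_le_card hsub).trans (card_union_le _ _)
  linarith

end Pool.Agent.J4.H57.BQ
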