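import Mathlib
import Pool.Agent.J4.H57.BQ.Main
import Pool.Agent.J4.H38.BP.TFin
import Pool.Agent.J4.H38.BP.Cons

/-! Consecutive primes at a bounded distance and almost primes between consecutive fifth powers: the final form
(helper57). -/

set_option autoImplicit false

namespace Pool.Agent.J4.H57.BQ

open Finset Filter
open Pool.Agent.J4.H38.DV

theorem relT_ok : St_relT := Pool.Agent.J4.H38.BP.relT

theorem VTsumT_ok : St_VTsumT := Pool.Agent.J4.H38.BP.VTsumT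

theorem cons45_ok : St_cons45 := Pool.Agent.J4.H38.BP.cons45

open Classical in
/-- the final form -/
theorem final5 (k : ℕ) (ε : ℝ) (hε : 0 < ε) :
    ∃ w₀ : ℕ, 2 ≤ w₀ ∧ ∀ w : ℕ, w₀ ≤ w → ∃ Λ δ' : ℝ, 0 < Λ ∧ 0 < δ' ∧ ∀ᶠ N : ℕ in atTop,
    ∃ g : ℕ, 2 ≤ g ∧ g ≤ 212 ∧ Even g ∧ ∀ H : ℕ, Λ * Real.log N ≤ H → H ≤ N ^ 3 →
    ((((AW w 0 H).powersetCard (k + 1)).filter (fun D =>
      ¬ δ' * N ≤ (((Icc 1 N).filter (fun n : ℕ => δ' * ((N : ℝ) ^ 4 / Real.log N ^ (k + 1 + 45)) ≤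
        (cq N g D n : ℝ))).card : ℝ))).card : ℝ) ≤ ε * ((AW w 0 H).card : ℝ) ^ (k + 1) :=
  main5 relT_ok VTsumT_ok cons45_ok k ε hε

end Pool.Agent.J4.H57.BQ
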